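import Pool.Agent.N874.PM.Stm

/-!
# Descent along Galois 2-extensions (part TOW)

Project PM (helper874); this file is by helper692.
-/

set_option autoImplicit false
set_option linter.all false

open Polynomial Module
open scoped Classical IntermediateField

namespace Pool.Agent.N692.PMTOW

open Pool.Agent.N874.PM

/-- the image of `L` in `Ω` -/
noncomputable def im (K L Ω : Type) [Field K] [Field L] [Field Ω] [Algebra K L]
    [Algebra L Ω] [Algebra K Ω] [IsScalarTower K L Ω] : IntermediateField K Ω :=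
  (IsScalarTower.toAlgHom K L Ω).fieldRange

section im

variable {K L Ω : Type} [Field K] [Field L] [Field Ω] [Algebra K L]
  [Algebra L Ω] [Algebra K Ω] [IsScalarTower K L Ω]

theorem mem_im_iff (x : Ω) : x ∈ im K L Ω ↔ ∃ y : L, algebraMap L Ω y = x := by
  unfold im
  rw [AlgHom.mem_fieldRange]
  rfl

theorem mem_im (x : L) : algebraMap L Ω x ∈ im K L Ω := (mem_im_iff _).2 ⟨x, rfl⟩

theorem finrank_im : finrank K (im K L Ω) = finrank K L :=
  ((AlgEquiv.ofInjectiveField (IsScalarTower.toAlgHom K L Ω)).toLinearEquiv.finrank_eq).symm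

end im

section fields

variable {K L M Ω : Type} [Field K] [Field L] [Field M] [Field Ω] [Algebra K L] [Algebra K M]
  [Algebra L Ω] [Algebra M Ω] [Algebra K Ω] [IsScalarTower K L Ω] [IsScalarTower K M Ω]

theorem sup_top {m : ℕ} (hM : finrank K M = 2 ^ m) (hL : finrank K L = 3)
    (hΩ : finrank M Ω = 3) : im K M Ω ⊔ im K L Ω = ⊤ := by
  have f1 : FiniteDimensional K M := .of_finrank_pos (by rw [hM]; positivity)
  have f2 : FiniteDimensional M Ω := .of_finrank_pos (by rw [hΩ]; norm_num)
  have f3 : FiniteDimensional K Ω := FiniteDimensional.trans K M Ω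
  have h1 : finrank K Ω = 2 ^ m * 3 := by rw [← finrank_mul_finrank K M Ω, hM, hΩ]
  have h2 : 2 ^ m ∣ finrank K (im K M Ω ⊔ im K L Ω : IntermediateField K Ω) := by
    rw [← hM, ← finrank_im (K := K) (L := M) (Ω := Ω)]
    exact IntermediateField.finrank_dvd_of_le_right le_sup_left
  have h3 : 3 ∣ finrank K (im K M Ω ⊔ im K L Ω : IntermediateField K Ω) := by
    rw [← hL, ← finrank_im (K := K) (L := L) (Ω := Ω)]
    exact IntermediateField.finrank_dvd_of_le_right le_sup_right
  have h4 : 2 ^ m * 3 ∣ finrank K (im K M Ω ⊔ im K L Ω : IntermediateField K Ω) :=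
    Nat.Coprime.mul_dvd_of_dvd_of_dvd (Nat.Coprime.pow_left m (by norm_num)) h2 h3
  refine IntermediateField.eq_of_le_of_finrank_le le_top ?_
  rw [IntermediateField.finrank_top', h1]
  exact Nat.le_of_dvd finrank_pos h4

theorem adj_top (htop : im K M Ω ⊔ im K L Ω = ⊤) (x : Ω) :
    x ∈ IntermediateField.adjoin L (Set.range (algebraMap M Ω)) := by
  set A := IntermediateField.adjoin L (Set.range (algebraMap M Ω)) with hA
  have hA1 : ∀ m : M, algebraMap M Ω m ∈ A := fun m =>
    IntermediateField.subset_adjoin L (Set.range (algebraMap M Ω)) ⟨m, rfl⟩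
  have hA2 : ∀ l : L, algebraMap L Ω l ∈ A := fun l => IntermediateField.algebraMap_mem A l
  clear_value A
  have h2 : im K M Ω ⊔ im K L Ω ≤ A.restrictScalars K := by
    apply sup_le
    · intro y hy
      obtain ⟨m, hm⟩ := (mem_im_iff y).1 hy
      rw [IntermediateField.mem_restrictScalars, ← hm]
      exact hA1 m
    · intro y hy
      obtain ⟨m, hm⟩ := (mem_im_iff y).1 hy
      rw [IntermediateField.mem_restrictScalars, ← hm]
      exact hA2 m
  rw [htop] at h2
  exact (IntermediateField.mem_restrictScalars K).1 (h2 IntermediateField.mem_top)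

theorem normal_of_top [IsGalois K M] [FiniteDimensional K M] [FiniteDimensional L Ω]
    (htop : im K M Ω ⊔ im K L Ω = ⊤) : Normal L Ω := by
  rw [normal_iff]
  intro x
  refine ⟨IsIntegral.of_finite L x, ?_⟩
  refine IntermediateField.splits_of_mem_adjoin L Ω ?_ (adj_top (K := K) (L := L) (M := M) htop x)
  rintro _ ⟨m, rfl⟩
  refine ⟨IsIntegral.of_finite L _, ?_⟩
  have h3 : minpoly L (algebraMap M Ω m) ∣ (minpoly K m).map (algebraMap K L) := by
    apply minpoly.dvd
    rw [aeval_map_algebraMap, aeval_algebraMap_apply, minpoly.aeval, map_zero]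
  have h4 : (((minpoly K m).map (algebraMap K M)).map (algebraMap M Ω)).Splits :=
    (Normal.splits (inferInstance : Normal K M) m).map _
  have h5 : ((minpoly K m).map (algebraMap K L)).map (algebraMap L Ω)
      = ((minpoly K m).map (algebraMap K M)).map (algebraMap M Ω) := by
    rw [Polynomial.map_map, Polynomial.map_map, ← IsScalarTower.algebraMap_eq,
      ← IsScalarTower.algebraMap_eq]
  rw [← h5] at h4
  have h6 : minpoly K m ≠ 0 := minpoly.ne_zero (IsIntegral.of_finite K m)
  refine h4.of_dvd ?_ (Polynomial.map_dvd _ h3)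
  rw [Polynomial.map_map]
  exact Polynomial.map_ne_zero h6

/-- the quadratic step -/
theorem step (h : S_QS) {K₁ : Type} [Field K₁] [Algebra K K₁] [Algebra K₁ M] [Algebra K₁ Ω]
    [IsScalarTower K K₁ M] [IsScalarTower K₁ M Ω] [IsScalarTower K K₁ Ω] [Normal L Ω]
    [FiniteDimensional K Ω] (h2 : (2 : K) ≠ 0) (hK : finrank K K₁ = 2) (hL : finrank K L = 3)
    (C : Ω → Prop) (hC1 : ∀ x : Ω, x ≠ 0 → C (x ^ 2))
    (hC2 : ∀ x y : Ω, x ≠ 0 → y ≠ 0 → C x → C y → C (x * y))
    (hC3 : ∀ (σ : Ω ≃ₐ[L] Ω) (x : Ω), C x → C (σ x))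
    (hC4 : ∀ x : L, x ≠ 0 → C (algebraMap L Ω x) → IsSquare (Algebra.norm K x) → IsSquare x) :
    ∃ (L₁ : IntermediateField K Ω) (i : Algebra K₁ L₁) (_ : IsScalarTower K₁ L₁ Ω),
      finrank K₁ L₁ = 3 ∧ (∀ l : L, algebraMap L Ω l ∈ L₁) ∧
      ∀ x : L₁, x ≠ 0 → C (algebraMap L₁ Ω x) → IsSquare (Algebra.norm K₁ x) → IsSquare x := by
  have f1 : FiniteDimensional K K₁ := .of_finrank_pos (by rw [hK]; norm_num)
  set L₁ : IntermediateField K Ω := im K L Ω ⊔ im K K₁ Ω with hL₁
  have m1 : ∀ l : L, algebraMap L Ω l ∈ L₁ := fun l =>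
    (le_sup_left : im K L Ω ≤ L₁) (mem_im l)
  have m2 : ∀ l : K₁, algebraMap K₁ Ω l ∈ L₁ := fun l =>
    (le_sup_right : im K K₁ Ω ≤ L₁) (mem_im l)
  have d1 : 3 ∣ finrank K L₁ := by
    rw [← hL, ← finrank_im (K := K) (L := L) (Ω := Ω)]
    exact IntermediateField.finrank_dvd_of_le_right le_sup_left
  have d2 : 2 ∣ finrank K L₁ := by
    rw [← hK, ← finrank_im (K := K) (L := K₁) (Ω := Ω)]
    exact IntermediateField.finrank_dvd_of_le_right le_sup_right
  have d3 : finrank K L₁ ≤ 3 * 2 := by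
    have h3 := IntermediateField.finrank_sup_le (im K L Ω) (im K K₁ Ω)
    rw [finrank_im, finrank_im, hL, hK] at h3
    exact h3
  have d4 : 0 < finrank K L₁ := finrank_pos
  have d5 : finrank K L₁ = 6 := by omega
  clear_value L₁
  letI i1 : Algebra L L₁ := ((algebraMap L Ω).codRestrict L₁ m1).toAlgebra
  letI i2 : Algebra K₁ L₁ := ((algebraMap K₁ Ω).codRestrict L₁ m2).toAlgebra
  haveI t1 : IsScalarTower L L₁ Ω := IsScalarTower.of_algebraMap_eq fun _ => rfl
  haveI t2 : IsScalarTower K₁ L₁ Ω := IsScalarTower.of_algebraMap_eq fun _ => rfl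
  haveI t3 : IsScalarTower K L L₁ := IsScalarTower.of_algebraMap_eq fun x =>
    Subtype.ext (IsScalarTower.algebraMap_apply K L Ω x)
  haveI t4 : IsScalarTower K K₁ L₁ := IsScalarTower.of_algebraMap_eq fun x =>
    Subtype.ext (IsScalarTower.algebraMap_apply K K₁ Ω x)
  have d6 : finrank K₁ L₁ = 3 := by
    have h3 := finrank_mul_finrank K K₁ L₁
    rw [hK, d5] at h3
    omega
  refine ⟨L₁, i2, t2, d6, m1, ?_⟩
  intro x hx hCx hn
  refine h K L K₁ L₁ h2 hK hL d6 (fun x => C (algebraMap L₁ Ω x)) ?_ ?_ ?_ ?_ x hx hCx hn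
  · intro x hx
    have := hC1 (algebraMap L₁ Ω x) (by simpa using hx)
    rw [← map_pow] at this
    exact this
  · intro x y hx hy h3 h4
    have := hC2 (algebraMap L₁ Ω x) (algebraMap L₁ Ω y) (by simpa using hx) (by simpa using hy)
      h3 h4
    rw [← map_mul] at this
    exact this
  · intro σ x h3
    have h4 := hC3 (σ.liftNormal Ω) _ h3
    rw [AlgEquiv.liftNormal_commutes] at h4
    exact h4
  · intro x hx h3 h4
    rw [← IsScalarTower.algebraMap_apply L L₁ Ω] at h3
    exact hC4 x hx h3 h4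

end fields

theorem tow (h : S_QS) : S_TOW := by
  intro n
  induction n with
  | zero =>
    intro K L M Ω _ _ _ _ _ _ _ _ _ _ _ _ h2 hM hL hΩ C hC1 hC2 hC3 hC4 x hx hCx hn
    have f1 : FiniteDimensional K M := .of_finrank_pos (by rw [hM]; positivity)
    have f2 : FiniteDimensional M Ω := .of_finrank_pos (by rw [hΩ]; norm_num)
    have f3 : FiniteDimensional K Ω := FiniteDimensional.trans K M Ω
    have f4 : FiniteDimensional K L := .of_finrank_pos (by rw [hL]; norm_num)
    have f5 : FiniteDimensional L Ω := FiniteDimensional.right K L Ω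
    have h1 : finrank K Ω = 3 := by
      rw [← finrank_mul_finrank K M Ω, hM, hΩ]
      norm_num
    have h3 : finrank L Ω = 1 := by
      have h4 := finrank_mul_finrank K L Ω
      rw [hL, h1] at h4
      omega
    have h5 : Function.Surjective (algebraMap L Ω) := by
      intro z
      have h6 : z ∈ (⊥ : Subalgebra L Ω) := by
        rw [Subalgebra.bot_eq_top_of_finrank_eq_one h3]
        exact Algebra.mem_top
      exact Algebra.mem_bot.1 h6
    obtain ⟨y, rfl⟩ := h5 x
    have hy : y ≠ 0 := fun h0 => hx (by rw [h0, map_zero])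
    have h6 : IsSquare (Algebra.norm K y) := by
      have h7 : Algebra.norm K (algebraMap L Ω y) = Algebra.norm K y := by
        rw [← Algebra.norm_norm (S := L), Algebra.norm_algebraMap, h3, pow_one]
      have h8 : Algebra.norm K (Algebra.norm M (algebraMap L Ω y))
          = Algebra.norm K (algebraMap L Ω y) := Algebra.norm_norm
      rw [← h7, ← h8]
      exact hn.map _
    exact (hC4 y hy hCx h6).map _
  | succ n ih =>
    intro K L M Ω _ _ _ _ _ _ _ _ _ _ _ _ h2 hM hL hΩ C hC1 hC2 hC3 hC4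
    have f1 : FiniteDimensional K M := .of_finrank_pos (by rw [hM]; positivity)
    have f2 : FiniteDimensional M Ω := .of_finrank_pos (by rw [hΩ]; norm_num)
    have f3 : FiniteDimensional K Ω := FiniteDimensional.trans K M Ω
    have f4 : FiniteDimensional K L := .of_finrank_pos (by rw [hL]; norm_num)
    have f5 : FiniteDimensional L Ω := FiniteDimensional.right K L Ω
    have hcard : Nat.card (M ≃ₐ[K] M) = 2 ^ (n + 1) := by
      rw [IsGalois.card_aut_eq_finrank, hM]
    obtain ⟨H, hH⟩ := Sylow.exists_subgroup_card_pow_prime (G := M ≃ₐ[K] M) 2 (n := n)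
      (by rw [hcard]; exact pow_dvd_pow 2 (Nat.le_succ n))
    set K₁ := IntermediateField.fixedField H with hK₁
    have d1 : finrank K₁ M = 2 ^ n := by
      rw [IntermediateField.finrank_fixedField_eq_card, hH]
    clear_value K₁
    have d2 : finrank K K₁ = 2 := by
      have h4 := finrank_mul_finrank K K₁ M
      rw [hM, d1, pow_succ, mul_comm] at h4
      exact Nat.eq_of_mul_eq_mul_left (by positivity) h4
    have hN : Normal L Ω := normal_of_top (sup_top hM hL hΩ)
    obtain ⟨L₁, i1, t1, d3, m1, hs⟩ := step h (K₁ := K₁) (M := M) h2 d2 hL C hC1 hC2 hC3 hC4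
    have h2' : (2 : K₁) ≠ 0 := by
      have := (map_ne_zero (algebraMap K K₁)).2 h2
      rwa [map_ofNat] at this
    refine ih K₁ L₁ M Ω h2' d1 d3 hΩ C hC1 hC2 ?_ hs
    intro σ x hx
    let τ : Ω ≃ₐ[L] Ω := AlgEquiv.ofRingEquiv (f := σ.toRingEquiv)
      (fun l => σ.commutes ⟨algebraMap L Ω l, m1 l⟩)
    exact hC3 τ x hx

end Pool.Agent.N692.PMTOW
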